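import Pool.Agent.Q274.IYB.Nil

/-!
There is no bijective cocycle of `P` for which the two automorphisms `tau` and `sig` are additive.
-/

namespace Pool.Agent.Q274.IYB

namespace P

/-- A map to an additive group which is a homomorphism kills the elements `(0,0,s,t,r)`. -/
theorem hom_zero {N : Type*} [AddCommGroup N] (F : P → N) (hF : ∀ p q, F (p * q) = F p + F q)
    (s t r : ZMod 3) : F ⟨0, 0, s, t, r⟩ = 0 := by
  have h1 : ∀ t r : ZMod 3, F ⟨0, 0, 0, t, r⟩ = 0 := by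
    intro t r
    have e : (⟨0, 0, 0, t, r⟩ : P) * (⟨2 * t, 2 * r, 0, 0, 0⟩ * ⟨0, 0, 1, 0, 0⟩)
        = ⟨0, 0, 1, 0, 0⟩ * ⟨2 * t, 2 * r, 0, 0, 0⟩ := by
      simp only [mul_def]
      ext
      · ring
      · ring
      · ring
      · linear_combination (-t) * three
      · linear_combination (-r) * three
    have h := congrArg F e
    rw [hF, hF, hF] at h
    have h2 : F ⟨0, 0, 0, t, r⟩ + (F ⟨2 * t, 2 * r, 0, 0, 0⟩ + F ⟨0, 0, 1, 0, 0⟩)
      = 0 + (F ⟨2 * t, 2 * r, 0, 0, 0⟩ + F ⟨0, 0, 1, 0, 0⟩) := by rw [h]; abel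
    exact add_right_cancel h2
  have h2 : F ⟨0, 0, s, s ^ 2, 2 * s⟩ = 0 := by
    have e : (⟨0, 0, s, s ^ 2, 2 * s⟩ : P) * (⟨0, 1, 0, 0, 0⟩ * ⟨2 * s, 0, 0, 0, 0⟩)
        = ⟨2 * s, 0, 0, 0, 0⟩ * ⟨0, 1, 0, 0, 0⟩ := by
      simp only [mul_def]
      ext
      · ring
      · ring
      · linear_combination (-s) * three
      · linear_combination (s ^ 2) * three
      · linear_combination s * three
    have h := congrArg F e
    rw [hF, hF, hF] at h
    have h2 : F ⟨0, 0, s, s ^ 2, 2 * s⟩ + (F ⟨0, 1, 0, 0, 0⟩ + F ⟨2 * s, 0, 0, 0, 0⟩)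
      = 0 + (F ⟨0, 1, 0, 0, 0⟩ + F ⟨2 * s, 0, 0, 0, 0⟩) := by rw [h]; abel
    exact add_right_cancel h2
  have e : (⟨0, 0, s, t, r⟩ : P) = ⟨0, 0, 0, t - s ^ 2, r - 2 * s⟩ * ⟨0, 0, s, s ^ 2, 2 * s⟩ := by
    simp only [mul_def]
    ext <;> ring
  rw [e, hF, h1, h2, add_zero]

/-- The central involution. -/
def zz (p : P) : P := ⟨-p.a, -p.b, p.c, -p.d, -p.e⟩

theorem zz_eq (p : P) : zz p = tau (sig (tau (sig p))) := by
  simp [zz, tau_def, sig_def]

theorem hom_zz {N : Type*} [AddCommGroup N] (F : P → N) (hF : ∀ p q, F (p * q) = F p + F q)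
    (p : P) : F (zz p) + F p = 0 := by
  rw [← hF]
  have : zz p * p = ⟨0, 0, 2 * p.c, 2 * p.a * p.c, 2 * p.b * p.c⟩ := by
    simp only [mul_def, zz]
    ext <;> ring
  rw [this]
  exact hom_zero F hF _ _ _

theorem hom_inv {N : Type*} [AddCommGroup N] (F : P → N) (hF : ∀ p q, F (p * q) = F p + F q)
    (p : P) : F p⁻¹ = - F p := by
  have h1 : F 1 = 0 := by
    have := hF 1 1
    rw [one_mul] at this
    exact add_eq_left.mp this.symm
  have h2 := hF p⁻¹ p
  rw [inv_mul_cancel, h1] at h2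
  exact eq_neg_of_add_eq_zero_left h2.symm

end P

open P

namespace Coc

variable {M : Type*} [AddCommGroup M] (C : Coc M)

include C in
/-- Twice a member of a subgroup determines it. -/
theorem half_mem (N : AddSubgroup M) {m : M} (h : m + m ∈ N) : m ∈ N := by
  have hfM : Finite M := Finite.of_equiv P C.pi
  have h0 : (243 : ℕ) • m = 0 := by
    have h := card_nsmul_eq_zero' (G := M) (x := m)
    rwa [C.card_M] at h
  have h1 : m = (122 : ℕ) • (m + m) := by
    have : (122 : ℕ) • (m + m) = (243 : ℕ) • m + m := by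
      rw [← two_nsmul, ← mul_nsmul', ← succ_nsmul]
    rw [this, h0, zero_add]
  rw [h1]
  exact N.nsmul_mem h _

include C in
theorem split (m z : M) : m = (122 : ℕ) • (m + z) + (122 : ℕ) • (m - z) := by
  have hfM : Finite M := Finite.of_equiv P C.pi
  have h0 : (243 : ℕ) • m = 0 := by
    have h := card_nsmul_eq_zero' (G := M) (x := m)
    rwa [C.card_M] at h
  have : (122 : ℕ) • (m + z) + (122 : ℕ) • (m - z) = (243 : ℕ) • m + m := by
    rw [nsmul_add, nsmul_sub]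
    have : (243 : ℕ) • m + m = (122 : ℕ) • m + (122 : ℕ) • m := by
      rw [← add_nsmul, ← succ_nsmul]
    rw [this]
    abel
  rw [this, h0, zero_add]

/-- `p ↦ (p - 1) m` is a homomorphism modulo `D (D N)` for `m ∈ N`. -/
theorem hom_del {N : AddSubgroup M} {m : M} (hm : m ∈ N) (p q : P) :
    ((C.del (p * q) m : M) : M ⧸ C.D (C.D N))
      = ((C.del p m : M) : M ⧸ C.D (C.D N)) + ((C.del q m : M) : M ⧸ C.D (C.D N)) := by
  rw [C.del_mul, ← QuotientAddGroup.mk_add]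
  apply (QuotientAddGroup.eq).mpr
  have : -(C.del p (C.del q m) + C.del p m + C.del q m) + (C.del p m + C.del q m)
    = -(C.del p (C.del q m)) := by abel
  rw [this]
  exact AddSubgroup.neg_mem _ (C.del_mem p (C.del_mem q hm))

theorem del_comm_mem {N : AddSubgroup M} {m : M} (hm : m ∈ N) (s t r : ZMod 3) :
    C.del ⟨0, 0, s, t, r⟩ m ∈ C.D (C.D N) := by
  have h := hom_zero (fun p => ((C.del p m : M) : M ⧸ C.D (C.D N))) (C.hom_del hm) s t r
  exact (QuotientAddGroup.eq_zero_iff _).mp h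

theorem del_zz_mem {N : AddSubgroup M} {m : M} (hm : m ∈ N) (p : P) :
    C.del (zz p) m + C.del p m ∈ C.D (C.D N) := by
  have h := hom_zz (fun p => ((C.del p m : M) : M ⧸ C.D (C.D N))) (C.hom_del hm) p
  exact (QuotientAddGroup.eq_zero_iff _).mp h

theorem del_inv_mem {N : AddSubgroup M} {m : M} (hm : m ∈ N) (p : P) :
    C.del p⁻¹ m + C.del p m ∈ C.D (C.D N) := by
  have h := hom_inv (fun p => ((C.del p m : M) : M ⧸ C.D (C.D N))) (C.hom_del hm) p
  have h2 : ((C.del p⁻¹ m + C.del p m : M) : M ⧸ C.D (C.D N)) = 0 := by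
    rw [QuotientAddGroup.mk_add]
    exact add_eq_zero_iff_eq_neg.mpr h
  exact (QuotientAddGroup.eq_zero_iff _).mp h2

theorem pi_hom (p q : P) : ((C.pi (p * q) : M) : M ⧸ C.D ⊤)
    = ((C.pi p : M) : M ⧸ C.D ⊤) + ((C.pi q : M) : M ⧸ C.D ⊤) := by
  rw [C.h, ← QuotientAddGroup.mk_add]
  apply (QuotientAddGroup.eq).mpr
  have : -(C.pi p + C.lam p (C.pi q)) + (C.pi p + C.pi q) = -(C.del p (C.pi q)) := by
    rw [C.del_apply]; abel
  rw [this]
  exact AddSubgroup.neg_mem _ (C.del_mem p (AddSubgroup.mem_top _))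

theorem pi_zz_mem (p : P) : C.pi (zz p) + C.pi p ∈ C.D ⊤ := by
  have h := hom_zz (fun p => ((C.pi p : M) : M ⧸ C.D ⊤)) C.pi_hom p
  exact (QuotientAddGroup.eq_zero_iff _).mp h

theorem pi_inv_mem (p : P) : C.pi p⁻¹ + C.pi p ∈ C.D ⊤ := by
  have h := hom_inv (fun p => ((C.pi p : M) : M ⧸ C.D ⊤)) C.pi_hom p
  have h2 : ((C.pi p⁻¹ + C.pi p : M) : M ⧸ C.D ⊤) = 0 := by
    rw [QuotientAddGroup.mk_add]
    exact add_eq_zero_iff_eq_neg.mpr h
  exact (QuotientAddGroup.eq_zero_iff _).mp h2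

section equi

variable (α : P ≃* P) (A : M →+ M) (hA : ∀ p, A (C.pi p) = C.pi (α p))

include hA

theorem equi_lam (p : P) (m : M) : A (C.lam p m) = C.lam (α p) (A m) := by
  obtain ⟨q, rfl⟩ := C.pi.surjective m
  have h1 : C.lam p (C.pi q) = C.pi (p * q) - C.pi p := by rw [C.h]; abel
  rw [h1, map_sub, hA, hA, hA, map_mul, C.h]
  abel

theorem equi_del (p : P) (m : M) : A (C.del p m) = C.del (α p) (A m) := by
  rw [C.del_apply, C.del_apply, map_sub, C.equi_lam α A hA]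

theorem equi_D {N : AddSubgroup M} (hN : ∀ n ∈ N, A n ∈ N) : ∀ n ∈ C.D N, A n ∈ C.D N := by
  intro n hn
  have : C.D N ≤ (C.D N).comap A := by
    apply C.D_le
    intro p n hn
    show A (C.del p n) ∈ C.D N
    rw [C.equi_del α A hA]
    exact C.del_mem _ (hN n hn)
  exact this hn

end equi

end Coc

end Pool.Agent.Q274.IYB
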