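import Pool.Agent.Q274.IYB.Core

/-!
There is no bijective cocycle of `P` for which the two automorphisms `tau` and `sig` are additive:
the contradiction.
-/

namespace Pool.Agent.Q274.IYB

open P

namespace Coc

variable {M : Type*} [AddCommGroup M] (C : Coc M)

/-- If `Z` acts as `ε` on `N` modulo `D N` then it acts as `-ε` on `D N` modulo `D (D N)`. -/
theorem step (Z : M →+ M) (hZ : ∀ p, Z (C.pi p) = C.pi (zz p)) {N : AddSubgroup M} (ε : ℤ)
    (hN : ∀ n ∈ N, Z n - ε • n ∈ C.D N) :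
    ∀ n ∈ C.D N, Z n + ε • n ∈ C.D (C.D N) := by
  intro n hn
  refine AddSubgroup.closure_induction (p := fun n _ => Z n + ε • n ∈ C.D (C.D N)) ?_ ?_ ?_ ?_ hn
  · rintro _ ⟨p, m, hm, rfl⟩
    have hzz : ∀ p m, Z (C.del p m) = C.del (zz p) (Z m) := by
      intro p m
      obtain ⟨q, rfl⟩ := C.pi.surjective m
      have h1 : C.del p (C.pi q) = C.pi (p * q) - C.pi p - C.pi q := by
        rw [C.h, C.del_apply]; abel
      have h2 : C.del (zz p) (C.pi (zz q)) = C.pi (zz p * zz q) - C.pi (zz p) - C.pi (zz q) := by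
        rw [C.h, C.del_apply]; abel
      have h3 : zz (p * q) = zz p * zz q := by
        rw [zz_eq, zz_eq, zz_eq, map_mul, map_mul, map_mul, map_mul]
      rw [h1, map_sub, map_sub, hZ, hZ, hZ, h2, h3]
    have h1 : Z (C.del p m) + ε • C.del p m
        = C.del (zz p) (Z m - ε • m) + ε • (C.del (zz p) m + C.del p m) := by
      rw [hzz, map_sub, map_zsmul, smul_add]
      abel
    rw [h1]
    exact AddSubgroup.add_mem _ (C.del_mem _ (hN m hm))
      (AddSubgroup.zsmul_mem _ (C.del_zz_mem hm p) _)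
  · rw [map_zero, smul_zero, add_zero]; exact AddSubgroup.zero_mem _
  · intro a b _ _ ha hb
    have : Z (a + b) + ε • (a + b) = (Z a + ε • a) + (Z b + ε • b) := by
      rw [map_add, smul_add]; abel
    rw [this]
    exact AddSubgroup.add_mem _ ha hb
  · intro a _ ha
    have : Z (-a) + ε • (-a) = -(Z a + ε • a) := by
      rw [map_neg, smul_neg]; abel
    rw [this]
    exact AddSubgroup.neg_mem _ ha

theorem false_of_additive (T S : M →+ M) (hT : ∀ p, T (C.pi p) = C.pi (tau p))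
    (hS : ∀ p, S (C.pi p) = C.pi (sig p)) : False := by
  -- the central involution
  let Z : M →+ M := T.comp (S.comp (T.comp S))
  have hZ : ∀ p, Z (C.pi p) = C.pi (zz p) := by
    intro p
    show T (S (T (S (C.pi p)))) = _
    rw [hS, hT, hS, hT, zz_eq]
  have hZZ : ∀ m, Z (Z m) = m := by
    intro m
    obtain ⟨p, rfl⟩ := C.pi.surjective m
    rw [hZ, hZ]
    congr 1
    simp [zz]
  set M2 := C.D ⊤ with hM2
  set M3 := C.D M2 with hM3
  set M4 := C.D M3 with hM4
  have le3 : M3 ≤ M2 := C.D_mono le_top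
  have le4 : M4 ≤ M3 := C.D_mono le3
  have hZmem : ∀ {N : AddSubgroup M}, (∀ n ∈ N, T n ∈ N) → (∀ n ∈ N, S n ∈ N) →
      ∀ n ∈ N, Z n ∈ N := by
    intro N h1 h2 n hn
    exact h1 _ (h2 _ (h1 _ (h2 _ hn)))
  have T2 : ∀ n ∈ M2, T n ∈ M2 := C.equi_D tau T hT (fun _ _ => AddSubgroup.mem_top _)
  have S2 : ∀ n ∈ M2, S n ∈ M2 := C.equi_D sig S hS (fun _ _ => AddSubgroup.mem_top _)
  have T3 : ∀ n ∈ M3, T n ∈ M3 := C.equi_D tau T hT T2
  have S3 : ∀ n ∈ M3, S n ∈ M3 := C.equi_D sig S hS S2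
  have T4 : ∀ n ∈ M4, T n ∈ M4 := C.equi_D tau T hT T3
  have S4 : ∀ n ∈ M4, S n ∈ M4 := C.equi_D sig S hS S3
  -- the signs of `Z` on the layers
  have z1 : ∀ n ∈ (⊤ : AddSubgroup M), Z n - (-1 : ℤ) • n ∈ C.D ⊤ := by
    intro n _
    obtain ⟨p, rfl⟩ := C.pi.surjective n
    rw [hZ, neg_smul, one_smul, sub_neg_eq_add]
    exact C.pi_zz_mem p
  have z2' := C.step Z hZ (-1) z1
  have z2 : ∀ n ∈ M2, Z n - (1 : ℤ) • n ∈ C.D M2 := by
    intro n hn
    have := z2' n hn
    rwa [neg_smul, ← sub_eq_add_neg] at this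
  have z3' := C.step Z hZ 1 z2
  have z3 : ∀ n ∈ M3, Z n - (-1 : ℤ) • n ∈ C.D M3 := by
    intro n hn
    have := z3' n hn
    rwa [neg_smul, sub_neg_eq_add]
  have z4' := C.step Z hZ (-1) z3
  have z4 : ∀ n ∈ M4, Z n - n ∈ C.D M4 := by
    intro n hn
    have := z4' n hn
    rwa [neg_smul, ← sub_eq_add_neg, one_smul] at this
  have z2'' : ∀ n ∈ M2, n - Z n ∈ M3 := by
    intro n hn
    have := AddSubgroup.neg_mem _ (z2 n hn)
    rwa [one_smul, neg_sub] at this
  -- fixed points of `Z`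
  set e0 := C.pi ⟨0, 0, 1, 0, 0⟩ with he0
  have hfix : ∀ m, Z m = m → ∃ c : ZMod 3, m = C.pi ⟨0, 0, c, 0, 0⟩ := by
    intro m hm
    obtain ⟨p, rfl⟩ := C.pi.surjective m
    rw [hZ] at hm
    have h := C.pi.injective hm
    have hd : ∀ x : ZMod 3, -x = x → x = 0 := by decide
    refine ⟨p.c, ?_⟩
    congr 1
    have ha := hd _ (congrArg P.a h)
    have hb := hd _ (congrArg P.b h)
    have hdd := hd _ (congrArg P.d h)
    have hee := hd _ (congrArg P.e h)
    ext
    · exact ha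
    · exact hb
    · rfl
    · exact hdd
    · exact hee
  have hZc : ∀ c : ZMod 3, Z (C.pi ⟨0, 0, c, 0, 0⟩) = C.pi ⟨0, 0, c, 0, 0⟩ := by
    intro c
    rw [hZ]
    simp [zz]
  have hpi0 : C.pi ⟨0, 0, 0, 0, 0⟩ = 0 := C.pi_one
  have e0ne : e0 ≠ 0 := by
    intro h
    rw [he0, ← hpi0] at h
    exact absurd (congrArg P.c (C.pi.injective h)) (by decide)
  have half0 : ∀ m : M, m + m = 0 → m = 0 := by
    intro m hm
    have := C.half_mem ⊥ (m := m) (by rw [AddSubgroup.mem_bot]; exact hm)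
    rwa [AddSubgroup.mem_bot] at this
  have cases3 : ∀ c : ZMod 3, c = 0 ∨ c = 1 ∨ c = 2 := by decide
  -- `2 e0`
  have e1 : C.pi ⟨0, 0, 2, 0, 0⟩ = e0 + e0 := by
    obtain ⟨c, hc⟩ := hfix (e0 + e0) (by rw [map_add, he0, hZc])
    rcases cases3 c with rfl | rfl | rfl
    · exact absurd (half0 e0 (hc.trans hpi0)) e0ne
    · exact absurd (add_eq_left.mp hc) e0ne
    · exact hc.symm
  have e3 : e0 + e0 + e0 = 0 := by
    obtain ⟨c, hc⟩ := hfix (e0 + e0 + e0) (by rw [map_add, map_add, he0, hZc])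
    rcases cases3 c with rfl | rfl | rfl
    · exact hc.trans hpi0
    · rw [← he0] at hc
      have : e0 + e0 = 0 := by
        have h : e0 + e0 + e0 = 0 + e0 := by rw [hc, zero_add]
        exact add_right_cancel h
      exact absurd (half0 e0 this) e0ne
    · rw [e1] at hc
      exact absurd (add_eq_left.mp hc) e0ne
  have hfix2 : ∀ m, Z m = m → m = 0 ∨ m = e0 ∨ m = e0 + e0 := by
    intro m hm
    obtain ⟨c, hc⟩ := hfix m hm
    rcases cases3 c with rfl | rfl | rfl
    · exact Or.inl (hc.trans hpi0)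
    · exact Or.inr (Or.inl hc)
    · exact Or.inr (Or.inr (hc.trans e1))
  have hfixZ : ∀ m, Z (m + Z m) = m + Z m := by
    intro m
    rw [map_add, hZZ, add_comm]
  -- `P` is not abelian, so `M2` is not trivial
  have hM2ne : M2 ≠ ⊥ := by
    intro h
    have h1 : ∀ p q, C.pi (p * q) = C.pi p + C.pi q := by
      intro p q
      rw [C.h, C.lam_apply]
      have : C.del p (C.pi q) ∈ M2 := C.del_mem p (AddSubgroup.mem_top _)
      rw [h, AddSubgroup.mem_bot] at this
      rw [this, zero_add]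
    have h2 : (⟨1, 0, 0, 0, 0⟩ : P) * ⟨0, 1, 0, 0, 0⟩ = ⟨0, 1, 0, 0, 0⟩ * ⟨1, 0, 0, 0, 0⟩ := by
      apply C.pi.injective
      rw [h1, h1, add_comm]
    exact absurd h2 (by decide)
  -- `e0` is not in `M3`
  have he3 : e0 ∉ M3 := by
    intro h
    apply hM2ne
    apply C.eq_bot_of_le
    intro m hm
    rw [C.split m (Z m)]
    apply AddSubgroup.add_mem
    · apply AddSubgroup.nsmul_mem
      rcases hfix2 _ (hfixZ m) with h1 | h1 | h1
      · rw [h1]; exact AddSubgroup.zero_mem _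
      · rw [h1]; exact h
      · rw [h1]; exact AddSubgroup.add_mem _ h h
    · exact AddSubgroup.nsmul_mem _ (z2'' m hm) _
  have he3' : e0 + e0 ∉ M3 := fun h => he3 (C.half_mem M3 h)
  have hfix3 : ∀ m ∈ M3, Z m = m → m = 0 := by
    intro m hm hZm
    rcases hfix2 m hZm with h1 | h1 | h1
    · exact h1
    · rw [h1] at hm; exact absurd hm he3
    · rw [h1] at hm; exact absurd hm he3'
  -- `M4 = 0`
  have M4bot : M4 = ⊥ := by
    apply C.eq_bot_of_le
    intro m hm
    rw [C.split m (Z m)]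
    have h1 : m + Z m = 0 := by
      apply hfix3 _ _ (hfixZ m)
      exact AddSubgroup.add_mem _ (le4 hm) (hZmem T3 S3 m (le4 hm))
    rw [h1, smul_zero, zero_add]
    apply AddSubgroup.nsmul_mem
    have := AddSubgroup.neg_mem _ (z4 m hm)
    rwa [neg_sub] at this
  -- three times `M2` is in `M3`
  have hthree : ∀ m ∈ M2, m + m + m ∈ M3 := by
    intro m hm
    have h1 : m + m + m = (122 : ℕ) • ((m + Z m) + (m + Z m) + (m + Z m))
        + (122 : ℕ) • ((m - Z m) + (m - Z m) + (m - Z m)) := by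
      have := C.split m (Z m)
      calc m + m + m = ((122 : ℕ) • (m + Z m) + (122 : ℕ) • (m - Z m))
          + ((122 : ℕ) • (m + Z m) + (122 : ℕ) • (m - Z m))
          + ((122 : ℕ) • (m + Z m) + (122 : ℕ) • (m - Z m)) := by rw [← this]
        _ = _ := by
          simp only [smul_add, smul_sub]
          abel
    have h2 : (m + Z m) + (m + Z m) + (m + Z m) = 0 := by
      rcases hfix2 _ (hfixZ m) with h1 | h1 | h1
      · rw [h1]; simp
      · rw [h1]; exact e3
      · rw [h1]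
        have : e0 + e0 + (e0 + e0) + (e0 + e0) = (e0 + e0 + e0) + (e0 + e0 + e0) := by abel
        rw [this, e3, add_zero]
    rw [h1, h2, smul_zero, zero_add]
    apply AddSubgroup.nsmul_mem
    exact AddSubgroup.add_mem _ (AddSubgroup.add_mem _ (z2'' m hm) (z2'' m hm)) (z2'' m hm)
  -- `T` and `S` act as `-1` on `M2 / M3`
  have hneg : ∀ (A : M →+ M), (∀ n ∈ M3, A n ∈ M3) → A e0 + e0 = 0 → ∀ m ∈ M2, A m + m ∈ M3 := by
    intro A hA3 hA m hm
    have h1 : A m + m = (122 : ℕ) • (A (m + Z m) + (m + Z m))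
        + (122 : ℕ) • (A (m - Z m) + (m - Z m)) := by
      have := C.split m (Z m)
      calc A m + m = A ((122 : ℕ) • (m + Z m) + (122 : ℕ) • (m - Z m))
          + ((122 : ℕ) • (m + Z m) + (122 : ℕ) • (m - Z m)) := by rw [← this]
        _ = _ := by
          rw [map_add, map_nsmul, map_nsmul]
          simp only [smul_add]
          abel
    have h2 : A (m + Z m) + (m + Z m) = 0 := by
      rcases hfix2 _ (hfixZ m) with h1 | h1 | h1
      · rw [h1]; simp
      · rw [h1]; exact hA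
      · rw [h1, map_add]
        have : A e0 + A e0 + (e0 + e0) = (A e0 + e0) + (A e0 + e0) := by abel
        rw [this, hA, add_zero]
    rw [h1, h2, smul_zero, zero_add]
    apply AddSubgroup.nsmul_mem
    exact AddSubgroup.add_mem _ (hA3 _ (z2'' m hm)) (z2'' m hm)
  have hTe : T e0 + e0 = 0 := by
    rw [he0, hT]
    have : tau ⟨0, 0, 1, 0, 0⟩ = ⟨0, 0, 2, 0, 0⟩ := by decide
    rw [this, e1, ← he0]; exact e3
  have hSe : S e0 + e0 = 0 := by
    rw [he0, hS]
    have : sig ⟨0, 0, 1, 0, 0⟩ = ⟨0, 0, 2, 0, 0⟩ := by decide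
    rw [this, e1, ← he0]; exact e3
  have TM := hneg T T3 hTe
  have SM := hneg S S3 hSe
  -- generators
  set x : P := ⟨1, 0, 0, 0, 0⟩ with hx
  set y : P := ⟨0, 1, 0, 0, 0⟩ with hy
  set u := C.pi x with hu
  set v := C.pi y with hv
  have d2 : ∀ p m, C.del p m ∈ M2 := fun p m => C.del_mem p (AddSubgroup.mem_top _)
  have d3 : ∀ p, ∀ m ∈ M2, C.del p m ∈ M3 := fun p m hm => C.del_mem p hm
  have d4 : ∀ p, ∀ m ∈ M3, C.del p m = 0 := by
    intro p m hm
    have : C.del p m ∈ M4 := C.del_mem p hm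
    rwa [M4bot, AddSubgroup.mem_bot] at this
  -- `(x - 1) u ∈ M3`
  have hxu : C.del x u ∈ M3 := by
    apply C.half_mem
    have h1 : T (C.del x u) + C.del x u ∈ M3 := TM _ (d2 _ _)
    have h2 : T (C.del x u) = C.del x⁻¹ (C.pi x⁻¹) := by
      rw [C.equi_del tau T hT, hu, hT]
      have : tau x = x⁻¹ := by decide
      rw [this]
    have h3 : C.del x⁻¹ (C.pi x⁻¹) + C.del x (C.pi x⁻¹) ∈ M3 :=
      C.del_inv_mem (AddSubgroup.mem_top _) x
    have h4 : C.del x (C.pi x⁻¹) + C.del x u ∈ M3 := by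
      rw [← map_add]
      exact d3 _ _ (C.pi_inv_mem x)
    have h5 : C.del x u + C.del x u = (T (C.del x u) + C.del x u)
        - (C.del x⁻¹ (C.pi x⁻¹) + C.del x (C.pi x⁻¹)) + (C.del x (C.pi x⁻¹) + C.del x u) := by
      rw [h2]; abel
    rw [h5]
    exact AddSubgroup.add_mem _ (AddSubgroup.sub_mem _ h1 h3) h4
  -- `(y - 1) u + (x - 1) v ∈ M3`
  have hyu : C.del y u + C.del x v ∈ M3 := by
    have h1 : S (C.del x v) + C.del x v ∈ M3 := SM _ (d2 _ _)
    have h2 : S (C.del x v) = C.del y u := by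
      rw [C.equi_del sig S hS, hv, hS]
      have : sig x = y := by decide
      rw [this]
      have : sig y = x := by decide
      rw [this]
    rwa [h2] at h1
  -- the commutator
  set w : P := ⟨0, 0, 2, 1, 1⟩ with hw
  have hwxy : w * (y * x) = x * y := by decide
  have hw3 : ∀ m, C.del w m ∈ M3 := fun m => C.del_comm_mem (AddSubgroup.mem_top _) _ _ _
  have hw4 : ∀ m ∈ M2, C.del w m = 0 := by
    intro m hm
    have : C.del w m ∈ M4 := C.del_comm_mem hm _ _ _
    rwa [M4bot, AddSubgroup.mem_bot] at this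
  have hpw : C.pi w = C.del x v - C.del y u - C.del w (C.pi (y * x)) := by
    have h1 := C.h w (y * x)
    rw [hwxy, C.h x y, C.lam_apply w, C.h y x, C.lam_apply, C.lam_apply] at h1
    rw [C.h y x, C.lam_apply y (C.pi x)]
    have : C.pi w = C.pi w + (C.del w (C.pi y + (C.del y (C.pi x) + C.pi x))
      + (C.pi y + (C.del y (C.pi x) + C.pi x)))
      - (C.del w (C.pi y + (C.del y (C.pi x) + C.pi x))
      + (C.pi y + (C.del y (C.pi x) + C.pi x))) := by abel
    rw [this, ← h1]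
    abel
  have hwu : C.del w u = C.del x (C.del y u) := by
    have h1 : C.del (w * (y * x)) u = C.del (x * y) u := by rw [hwxy]
    rw [C.del_mul, C.del_mul y x, C.del_mul x y] at h1
    rw [d4 y _ hxu, zero_add, map_add, hw4 _ (d2 y u), hw4 _ (d2 x u)] at h1
    have h2 : C.del w u = (0 + 0 + C.del w u + (C.del y u + C.del x u))
      - (C.del y u + C.del x u) := by abel
    rw [h2, h1]; abel
  set r := C.del x v with hr
  have hxpw : C.del x (C.pi w) = C.del x r - C.del x (C.del y u) := by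
    rw [hpw, map_sub, map_sub, d4 x _ (hw3 _), sub_zero]
  have hxyu : C.del x (C.del y u) = - C.del x r := by
    have : C.del x (C.del y u + r) = 0 := d4 x _ hyu
    rw [map_add] at this
    exact eq_neg_of_add_eq_zero_left this
  have h3r : C.del x r + C.del x r + C.del x r = 0 := by
    rw [← map_add, ← map_add]
    exact d4 x _ (hthree r (d2 _ _))
  have hcomm : C.pi (w * x) = C.pi (x * w) := by
    rw [C.h, C.h, C.lam_apply, C.lam_apply, ← hu, hwu, hxpw, hxyu]
    have : C.pi w + (-C.del x r + u) = u + (C.del x r - -C.del x r + C.pi w)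
      - (C.del x r + C.del x r + C.del x r) := by abel
    rw [this, h3r, sub_zero]
  exact absurd (C.pi.injective hcomm) (by decide)

end Coc

end Pool.Agent.Q274.IYB
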