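import Pool.Agent.Q274.IYB.Grp

/-!
The group `K` of signed permutations of two letters (dihedral of order eight), its action on `P`
and the semidirect product `G` of order `1944`.
-/

namespace Pool.Agent.Q274.IYB

/-- The underlying set of the dihedral group of order eight. -/
@[ext]
structure K where
  /-- sign of the first generator -/
  p : ZMod 2
  /-- sign of the second generator -/
  q : ZMod 2
  /-- exchange of the generators -/
  s : ZMod 2
deriving DecidableEq

namespace K

/-- Coordinates. -/
def toProd : K ≃ ZMod 2 × ZMod 2 × ZMod 2 where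
  toFun k := (k.p, k.q, k.s)
  invFun k := ⟨k.1, k.2.1, k.2.2⟩
  left_inv _ := rfl
  right_inv _ := rfl

instance : Fintype K := Fintype.ofEquiv _ toProd.symm

theorem card : Nat.card K = 8 := by
  rw [Nat.card_congr toProd]
  simp

instance : Mul K := ⟨fun k l => ⟨k.p + (if k.s = 0 then l.p else l.q),
  k.q + (if k.s = 0 then l.q else l.p), k.s + l.s⟩⟩

instance : One K := ⟨⟨0, 0, 0⟩⟩

instance : Inv K := ⟨fun k => ⟨if k.s = 0 then k.p else k.q, if k.s = 0 then k.q else k.p, k.s⟩⟩

theorem mul_def (k l : K) : k * l = ⟨k.p + (if k.s = 0 then l.p else l.q),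
  k.q + (if k.s = 0 then l.q else l.p), k.s + l.s⟩ := rfl

theorem one_def : (1 : K) = ⟨0, 0, 0⟩ := rfl

instance : Group K := Group.ofLeftAxioms (by decide) (by decide) (by decide)

end K

/-- The sign attached to a class modulo two. -/
def sg (p : ZMod 2) : ZMod 3 := if p = 0 then 1 else -1

theorem sg_add : ∀ p q : ZMod 2, sg (p + q) = sg p * sg q := by decide

theorem sg_sq : ∀ p : ZMod 2, sg p * sg p = 1 := by decide

theorem sg_zero : sg 0 = 1 := rfl

namespace P

/-- The diagonal automorphisms. -/
def dia (p q : ZMod 2) : P ≃* P where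
  toFun x := ⟨sg p * x.a, sg q * x.b, sg p * sg q * x.c, sg q * x.d, sg p * x.e⟩
  invFun x := ⟨sg p * x.a, sg q * x.b, sg p * sg q * x.c, sg q * x.d, sg p * x.e⟩
  left_inv x := by
    have hp := sg_sq p
    have hq := sg_sq q
    ext
    · linear_combination x.a * hp
    · linear_combination x.b * hq
    · linear_combination x.c * (sg q * sg q) * hp + x.c * hq
    · linear_combination x.d * hq
    · linear_combination x.e * hp
  right_inv x := by
    have hp := sg_sq p
    have hq := sg_sq q
    ext
    · linear_combination x.a * hp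
    · linear_combination x.b * hq
    · linear_combination x.c * (sg q * sg q) * hp + x.c * hq
    · linear_combination x.d * hq
    · linear_combination x.e * hp
  map_mul' x y := by
    have hp := sg_sq p
    have hq := sg_sq q
    simp only [mul_def]
    ext
    · ring
    · ring
    · ring
    · simp only
      linear_combination (-x.c * y.a * sg q + x.a * y.c * sg q - x.a ^ 2 * y.b * sg q
        - x.b * y.a ^ 2 * sg q) * hp
    · simp only
      linear_combination (-x.c * y.b * sg p + x.b * y.c * sg p + x.b ^ 2 * y.a * sg p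
        + x.a * y.b ^ 2 * sg p) * hq

theorem dia_def (p q : ZMod 2) (x : P) :
    dia p q x = ⟨sg p * x.a, sg q * x.b, sg p * sg q * x.c, sg q * x.d, sg p * x.e⟩ := rfl

end P

/-- The action of `K` on `P`. -/
def act (k : K) : P ≃* P := if k.s = 0 then P.dia k.p k.q else P.sig.trans (P.dia k.p k.q)

theorem act_zero {k : K} (h : k.s = 0) (x : P) :
    act k x = ⟨sg k.p * x.a, sg k.q * x.b, sg k.p * sg k.q * x.c, sg k.q * x.d, sg k.p * x.e⟩ := by
  rw [act, if_pos h]; rfl

theorem act_one {k : K} (h : k.s = 1) (x : P) :
    act k x = ⟨sg k.p * x.b, sg k.q * x.a, sg k.p * sg k.q * (-x.c), sg k.q * (-x.e),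
      sg k.p * (-x.d)⟩ := by
  rw [act, if_neg (by rw [h]; decide)]; rfl

theorem z2 : ∀ s : ZMod 2, s = 0 ∨ s = 1 := by decide

theorem act_mul (k l : K) (x : P) : act (k * l) x = act k (act l x) := by
  rcases z2 k.s with hk | hk <;> rcases z2 l.s with hl | hl
  · rw [act_zero (k := k * l) (by rw [K.mul_def]; simp [hk, hl]), act_zero hk, act_zero hl]
    simp only [K.mul_def, hk, if_true, sg_add]
    ext <;> ring
  · rw [act_one (k := k * l) (by rw [K.mul_def]; simp [hk, hl]), act_zero hk, act_one hl]
    simp only [K.mul_def, hk, if_true, sg_add]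
    ext <;> ring
  · have h1 : ¬ ((1 : ZMod 2) = 0) := by decide
    rw [act_one (k := k * l) (by rw [K.mul_def]; simp [hk, hl]), act_one hk, act_zero hl]
    simp only [K.mul_def, hk, h1, if_false, sg_add]
    ext <;> ring
  · have h1 : ¬ ((1 : ZMod 2) = 0) := by decide
    have h2 : (1 : ZMod 2) + 1 = 0 := by decide
    rw [act_zero (k := k * l) (by rw [K.mul_def]; simp [hk, hl, h2]), act_one hk, act_one hl]
    simp only [K.mul_def, hk, h1, if_false, sg_add]
    ext <;> ring

/-- The action of `K` on `P` as a homomorphism. -/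
def actHom : K →* MulAut P := MonoidHom.mk' act (by
  intro k l
  ext x
  · exact congrArg P.a (act_mul k l x)
  · exact congrArg P.b (act_mul k l x)
  · exact congrArg P.c (act_mul k l x)
  · exact congrArg P.d (act_mul k l x)
  · exact congrArg P.e (act_mul k l x))

theorem actHom_apply (k : K) (x : P) : actHom k x = act k x := rfl

theorem act_tau (x : P) : act ⟨1, 0, 0⟩ x = P.tau x := by
  rw [act_zero rfl, P.tau_def]
  have h1 : sg 1 = -1 := rfl
  simp [h1, sg_zero]

theorem act_sig (x : P) : act ⟨0, 0, 1⟩ x = P.sig x := by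
  rw [act_one rfl, P.sig_def]
  simp [sg_zero]

/-- The group of order `1944`. -/
abbrev GG : Type := P ⋊[actHom] K

theorem card_GG : Nat.card GG = 1944 := by
  rw [SemidirectProduct.card, P.card, K.card]

instance : Finite GG := Nat.finite_of_card_ne_zero (by rw [card_GG]; norm_num)

end Pool.Agent.Q274.IYB
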