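import Mathlib

/-!
The group `P` of order `3^5` and class three: the free product of two groups of order three
modulo the fourth term of its lower central series.  The dihedral group of order eight
(signed permutations of the two generators) acts on it.
-/

namespace Pool.Agent.Q274.IYB

/-- The underlying set of the group `P` of order `3 ^ 5`. -/
@[ext]
structure P where
  /-- first coordinate -/
  a : ZMod 3
  /-- second coordinate -/
  b : ZMod 3
  /-- third coordinate -/
  c : ZMod 3
  /-- fourth coordinate -/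
  d : ZMod 3
  /-- fifth coordinate -/
  e : ZMod 3
deriving DecidableEq

namespace P

/-- Coordinates. -/
def toProd : P ≃ ZMod 3 × ZMod 3 × ZMod 3 × ZMod 3 × ZMod 3 where
  toFun p := (p.a, p.b, p.c, p.d, p.e)
  invFun q := ⟨q.1, q.2.1, q.2.2.1, q.2.2.2.1, q.2.2.2.2⟩
  left_inv _ := rfl
  right_inv _ := rfl

instance : Fintype P := Fintype.ofEquiv _ toProd.symm

theorem card : Nat.card P = 243 := by
  rw [Nat.card_congr toProd]
  simp

instance : Mul P := ⟨fun p q => ⟨p.a + q.a, p.b + q.b, p.c + q.c + p.a * q.b - p.b * q.a,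
  p.d + q.d + p.c * q.a - p.a * q.c + p.a ^ 2 * q.b + p.b * q.a ^ 2,
  p.e + q.e + p.c * q.b - p.b * q.c - p.b ^ 2 * q.a - p.a * q.b ^ 2⟩⟩

instance : One P := ⟨⟨0, 0, 0, 0, 0⟩⟩

instance : Inv P := ⟨fun p => ⟨-p.a, -p.b, -p.c, -p.d, -p.e⟩⟩

theorem mul_def (p q : P) : p * q = ⟨p.a + q.a, p.b + q.b, p.c + q.c + p.a * q.b - p.b * q.a,
  p.d + q.d + p.c * q.a - p.a * q.c + p.a ^ 2 * q.b + p.b * q.a ^ 2,
  p.e + q.e + p.c * q.b - p.b * q.c - p.b ^ 2 * q.a - p.a * q.b ^ 2⟩ := rfl

theorem one_def : (1 : P) = ⟨0, 0, 0, 0, 0⟩ := rfl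

theorem inv_def (p : P) : p⁻¹ = ⟨-p.a, -p.b, -p.c, -p.d, -p.e⟩ := rfl

theorem three : (3 : ZMod 3) = 0 := by decide

instance : Group P := Group.ofLeftAxioms
  (by
    intro p q r
    simp only [mul_def]
    ext
    · ring
    · ring
    · ring
    · linear_combination (p.a * q.a * r.b - p.b * q.a * r.a) * three
    · linear_combination (p.a * q.b * r.b - p.b * q.b * r.a) * three)
  (by
    intro p
    simp [mul_def, one_def])
  (by
    intro p
    simp only [mul_def, one_def, inv_def]
    ext <;> ring)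


/-- The automorphism inverting the first generator. -/
def tau : P ≃* P where
  toFun p := ⟨-p.a, p.b, -p.c, p.d, -p.e⟩
  invFun p := ⟨-p.a, p.b, -p.c, p.d, -p.e⟩
  left_inv p := by simp
  right_inv p := by simp
  map_mul' p q := by
    simp only [mul_def]
    ext <;> ring

/-- The automorphism exchanging the two generators. -/
def sig : P ≃* P where
  toFun p := ⟨p.b, p.a, -p.c, -p.e, -p.d⟩
  invFun p := ⟨p.b, p.a, -p.c, -p.e, -p.d⟩
  left_inv p := by simp
  right_inv p := by simp
  map_mul' p q := by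
    simp only [mul_def]
    ext <;> ring

theorem tau_def (p : P) : tau p = ⟨-p.a, p.b, -p.c, p.d, -p.e⟩ := rfl

theorem sig_def (p : P) : sig p = ⟨p.b, p.a, -p.c, -p.e, -p.d⟩ := rfl

end P

end Pool.Agent.Q274.IYB
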