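import Pool.Agent.Q274.IYB.Grp

/-!
Cocycles of `P` with values in an abelian group and the augmentation filtration.
-/

namespace Pool.Agent.Q274.IYB

/-- A bijective cocycle of `P` with values in the abelian group `M`. -/
structure Coc (M : Type*) [AddCommGroup M] where
  /-- the action -/
  lam : P → M →+ M
  /-- the bijective cocycle -/
  pi : P ≃ M
  /-- the cocycle identity -/
  h : ∀ p q, pi (p * q) = pi p + lam p (pi q)

namespace Coc

variable {M : Type*} [AddCommGroup M] (C : Coc M)

theorem lam_mul (p q : P) (m : M) : C.lam (p * q) m = C.lam p (C.lam q m) := by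
  obtain ⟨r, rfl⟩ := C.pi.surjective m
  have h1 := C.h (p * q) r
  rw [mul_assoc, C.h p (q * r), C.h p q, C.h q r, map_add] at h1
  have h2 : C.pi p + C.lam p (C.pi q) + C.lam p (C.lam q (C.pi r))
      = C.pi p + C.lam p (C.pi q) + C.lam (p * q) (C.pi r) := by
    rw [← h1]; abel
  exact (add_left_cancel h2).symm

theorem lam_one (m : M) : C.lam 1 m = m := by
  -- `lam 1` is idempotent and injective
  have hidem : C.lam 1 (C.lam 1 m) = C.lam 1 m := by
    rw [← C.lam_mul, one_mul]
  have hinj : ∀ a, C.lam 1 a = 0 → a = 0 := by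
    intro a ha
    obtain ⟨s, rfl⟩ := C.pi.surjective a
    have h1 := C.h 1 s
    rw [ha, one_mul, add_zero] at h1
    have h2 : s = 1 := C.pi.injective h1
    rw [h2] at ha ⊢
    have h3 := C.h 1 1
    rw [one_mul, ha, add_zero] at h3
    obtain ⟨t, ht⟩ := C.pi.surjective 0
    have h4 := C.h 1 t
    rw [ht, map_zero, one_mul, ht, add_zero] at h4
    exact h4.symm
  have : C.lam 1 (C.lam 1 m - m) = 0 := by rw [map_sub, hidem, sub_self]
  exact sub_eq_zero.mp (hinj _ this)

theorem pi_one : C.pi 1 = 0 := by
  have h := C.h 1 1
  rw [one_mul, C.lam_one] at h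
  exact (add_eq_left.mp h.symm)

/-- The operator `p - 1`. -/
def del (p : P) : M →+ M := C.lam p - AddMonoidHom.id M

theorem del_apply (p : P) (m : M) : C.del p m = C.lam p m - m := rfl

theorem lam_apply (p : P) (m : M) : C.lam p m = C.del p m + m := by
  rw [del_apply]; abel

theorem del_mul (p q : P) (m : M) :
    C.del (p * q) m = C.del p (C.del q m) + C.del p m + C.del q m := by
  simp only [del_apply, lam_mul, map_sub]
  abel

/-- The subgroup generated by the elements `(p - 1) n`, `n ∈ N`. -/
def D (N : AddSubgroup M) : AddSubgroup M :=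
  AddSubgroup.closure {m | ∃ p : P, ∃ n ∈ N, m = C.del p n}

theorem del_mem {N : AddSubgroup M} (p : P) {n : M} (hn : n ∈ N) : C.del p n ∈ C.D N :=
  AddSubgroup.subset_closure ⟨p, n, hn, rfl⟩

theorem D_mono {N N' : AddSubgroup M} (h : N ≤ N') : C.D N ≤ C.D N' := by
  apply (AddSubgroup.closure_le _).mpr
  rintro _ ⟨p, n, hn, rfl⟩
  exact C.del_mem p (h hn)

theorem D_le {N N' : AddSubgroup M} (h : ∀ p, ∀ n ∈ N, C.del p n ∈ N') : C.D N ≤ N' := by
  apply (AddSubgroup.closure_le _).mpr
  rintro _ ⟨p, n, hn, rfl⟩
  exact h p n hn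

/-- The action of `P` as a homomorphism to the automorphism group. -/
def phi : P →* MulAut (Multiplicative M) where
  toFun p :=
    { toFun := fun m => Multiplicative.ofAdd (C.lam p m.toAdd)
      invFun := fun m => Multiplicative.ofAdd (C.lam p⁻¹ m.toAdd)
      left_inv := by
        intro m
        show Multiplicative.ofAdd (C.lam p⁻¹ (C.lam p m.toAdd)) = m
        rw [← C.lam_mul, inv_mul_cancel, C.lam_one]
        rfl
      right_inv := by
        intro m
        show Multiplicative.ofAdd (C.lam p (C.lam p⁻¹ m.toAdd)) = m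
        rw [← C.lam_mul, mul_inv_cancel, C.lam_one]
        rfl
      map_mul' := by
        intro m n
        show Multiplicative.ofAdd (C.lam p (m.toAdd + n.toAdd)) = _
        rw [map_add]
        rfl }
  map_one' := by
    ext m
    show Multiplicative.ofAdd (C.lam 1 m.toAdd) = m
    rw [C.lam_one]
    rfl
  map_mul' := by
    intro p q
    ext m
    show Multiplicative.ofAdd (C.lam (p * q) m.toAdd) = Multiplicative.ofAdd (C.lam p (C.lam q m.toAdd))
    rw [C.lam_mul]

theorem phi_apply (p : P) (m : M) :
    C.phi p (Multiplicative.ofAdd m) = Multiplicative.ofAdd (C.lam p m) := rfl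

include C in
theorem card_M : Nat.card M = 243 := by
  rw [← Nat.card_congr C.pi, P.card]

instance : Fact (Nat.Prime 3) := ⟨by norm_num⟩

/-- The augmentation filtration reaches zero. -/
theorem exists_iter : ∃ n, (C.D)^[n] ⊤ = ⊥ := by
  have hfM : Finite M := Finite.of_equiv P C.pi
  have hfM' : Finite (Multiplicative M) := hfM
  let H := (Multiplicative M) ⋊[C.phi] P
  have hcard : Nat.card H = 3 ^ 10 := by
    rw [SemidirectProduct.card, P.card]
    have : Nat.card (Multiplicative M) = 243 := C.card_M
    rw [this]
    norm_num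
  have hfH : Finite H := Nat.finite_of_card_ne_zero (by rw [hcard]; norm_num)
  have hp : IsPGroup 3 H := IsPGroup.of_card hcard
  have hnil : Group.IsNilpotent H := hp.isNilpotent
  obtain ⟨n, hn⟩ := Subgroup.nilpotent_iff_lowerCentralSeries.mp hnil
  refine ⟨n, ?_⟩
  have key : ∀ k, ∀ m ∈ (C.D)^[k] ⊤,
      (SemidirectProduct.inl (Multiplicative.ofAdd m) : H) ∈ (⊤ : Subgroup H).lowerCentralSeries k := by
    intro k
    induction k with
    | zero =>
      intro m _
      simp
    | succ k ih =>
      intro m hm
      rw [Function.iterate_succ_apply'] at hm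
      refine AddSubgroup.closure_induction (p := fun m _ =>
        (SemidirectProduct.inl (Multiplicative.ofAdd m) : H) ∈ (⊤ : Subgroup H).lowerCentralSeries (k + 1))
        ?_ ?_ ?_ ?_ hm
      · rintro _ ⟨p, n, hn, rfl⟩
        have h1 := ih n hn
        have h2 : (SemidirectProduct.inl (Multiplicative.ofAdd (C.del p n)) : H)
            = (SemidirectProduct.inl (Multiplicative.ofAdd n) * SemidirectProduct.inr p
              * (SemidirectProduct.inl (Multiplicative.ofAdd n))⁻¹ * (SemidirectProduct.inr p)⁻¹)⁻¹ := by
          have h3 : (SemidirectProduct.inl (C.phi p (Multiplicative.ofAdd n)) : H)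
              = SemidirectProduct.inr p * SemidirectProduct.inl (Multiplicative.ofAdd n)
                * SemidirectProduct.inr p⁻¹ := SemidirectProduct.inl_aut _ _
          have h4 : Multiplicative.ofAdd (C.del p n)
              = C.phi p (Multiplicative.ofAdd n) * (Multiplicative.ofAdd n)⁻¹ := by
            rw [phi_apply, del_apply, sub_eq_add_neg]; rfl
          rw [h4, map_mul, h3, map_inv, map_inv]
          group
        rw [h2]
        apply Subgroup.inv_mem
        rw [Subgroup.mem_lowerCentralSeries_succ_iff]
        exact Subgroup.subset_closure ⟨_, h1, _, Subgroup.mem_top _, rfl⟩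
      · exact Subgroup.one_mem _
      · intro a b _ _ ha hb
        have : (SemidirectProduct.inl (Multiplicative.ofAdd (a + b)) : H)
            = SemidirectProduct.inl (Multiplicative.ofAdd a)
              * SemidirectProduct.inl (Multiplicative.ofAdd b) := by
          rw [← map_mul]; rfl
        rw [this]
        exact Subgroup.mul_mem _ ha hb
      · intro a _ ha
        have : (SemidirectProduct.inl (Multiplicative.ofAdd (-a)) : H)
            = (SemidirectProduct.inl (Multiplicative.ofAdd a))⁻¹ := by
          rw [← map_inv]; rfl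
        rw [this]
        exact Subgroup.inv_mem _ ha
  rw [eq_bot_iff]
  intro m hm
  have h1 := key n m hm
  rw [hn, Subgroup.mem_bot] at h1
  have h2 := SemidirectProduct.inl_injective (h1.trans (map_one _).symm)
  exact h2

/-- A subgroup contained in its derived subgroup is trivial. -/
theorem eq_bot_of_le {N : AddSubgroup M} (h : N ≤ C.D N) : N = ⊥ := by
  obtain ⟨n, hn⟩ := C.exists_iter
  have key : ∀ k, N ≤ (C.D)^[k] ⊤ := by
    intro k
    induction k with
    | zero => exact le_top
    | succ k ih =>
      rw [Function.iterate_succ_apply']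
      exact h.trans (C.D_mono ih)
  rw [eq_bot_iff, ← hn]
  exact key n

end Coc

end Pool.Agent.Q274.IYB
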