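import Pool.Agent.Q274.IYB.Ext

/-!
Left braces with multiplicative groups `P` and `K`; `G` is soluble.
-/

namespace Pool.Agent.Q274.IYB

open P

/-- The change of coordinates turning left multiplications of `P` into affine maps. -/
def theta : P ≃ ZMod 3 × ZMod 3 × ZMod 3 × ZMod 3 × ZMod 3 where
  toFun p := (p.a, p.b, -p.c - p.a * p.b, -p.d + p.a * p.c - p.a ^ 2 * p.b, p.e + p.a * p.b ^ 2)
  invFun m := ⟨m.1, m.2.1, -m.2.2.1 - m.1 * m.2.1,
    -m.2.2.2.1 - m.1 * m.2.2.1 + m.1 ^ 2 * m.2.1, m.2.2.2.2 - m.1 * m.2.1 ^ 2⟩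
  left_inv p := by
    ext
    · rfl
    · rfl
    · ring
    · simp only
      linear_combination (p.a ^ 2 * p.b) * three
    · ring
  right_inv m := by
    obtain ⟨a, b, c, d, e⟩ := m
    simp only [Prod.mk.injEq, true_and]
    refine ⟨by ring, ?_, by ring⟩
    linear_combination (-(a ^ 2 * b)) * three

/-- The linear part of left multiplication. -/
def lin (p : P) (m : ZMod 3 × ZMod 3 × ZMod 3 × ZMod 3 × ZMod 3) :
    ZMod 3 × ZMod 3 × ZMod 3 × ZMod 3 × ZMod 3 :=
  (m.1, m.2.1, m.2.2.1 + p.a * m.2.1, m.2.2.2.1 + p.a * m.2.2.1 - p.a ^ 2 * m.2.1,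
    m.2.2.2.2 + p.b * m.2.2.1 + (p.a * p.b + p.c + p.a * p.b) * m.2.1)

theorem lin_add (p : P) (m n : ZMod 3 × ZMod 3 × ZMod 3 × ZMod 3 × ZMod 3) :
    lin p (m + n) = lin p m + lin p n := by
  obtain ⟨a, b, c, d, e⟩ := m
  obtain ⟨a', b', c', d', e'⟩ := n
  simp only [lin, Prod.mk_add_mk, Prod.mk.injEq, true_and]
  refine ⟨by ring, by ring, by ring⟩

theorem theta_def (p : P) : theta p = (p.a, p.b, -p.c - p.a * p.b,
    -p.d + p.a * p.c - p.a ^ 2 * p.b, p.e + p.a * p.b ^ 2) := rfl

theorem theta_mul (p q : P) : theta (p * q) = theta p + lin p (theta q) := by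
  rw [theta_def, theta_def, theta_def]
  simp only [lin, mul_def, Prod.mk_add_mk, Prod.mk.injEq, true_and]
  refine ⟨?_, ?_, ?_⟩
  · linear_combination (-(p.a * q.b)) * three
  · linear_combination (-(p.a * p.b * q.a) + p.a * q.c - p.b * q.a ^ 2) * three
  · linear_combination (p.b * q.a * q.b) * three

/-- The additive structure turning `P` into a left brace. -/
@[reducible] def addP : AddCommGroup P := theta.addCommGroup

theorem braceP : letI := addP; ∀ a b c : P, a * (b + c) = a * b - a + a * c := by
  letI := addP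
  intro a b c
  have hadd : ∀ x y : P, theta (x + y) = theta x + theta y := by
    intro x y
    show theta (theta.symm (theta x + theta y)) = _
    rw [Equiv.apply_symm_apply]
  have hsub : ∀ x y : P, theta (x - y) = theta x - theta y := by
    intro x y
    have h := hadd (x - y) y
    rw [sub_add_cancel] at h
    rw [h, add_sub_cancel_right]
  apply theta.injective
  rw [theta_mul, hadd, hadd, hsub, theta_mul, theta_mul, lin_add]
  abel

/-- The additive structure turning `K` into a left brace. -/
@[reducible] def addK : AddCommGroup K := K.toProd.addCommGroup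

theorem braceK : letI := addK; ∀ a b c : K, a * (b + c) = a * b - a + a * c := by
  letI := addK
  intro a b c
  have hadd : ∀ x y : K, K.toProd (x + y) = K.toProd x + K.toProd y := by
    intro x y
    show K.toProd (K.toProd.symm (K.toProd x + K.toProd y)) = _
    rw [Equiv.apply_symm_apply]
  have hsub : ∀ x y : K, K.toProd (x - y) = K.toProd x - K.toProd y := by
    intro x y
    have h := hadd (x - y) y
    rw [sub_add_cancel] at h
    rw [h, add_sub_cancel_right]
  have hp : ∀ x y : K, (x + y) = ⟨x.p + y.p, x.q + y.q, x.s + y.s⟩ := by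
    intro x y
    apply K.toProd.injective
    rw [hadd]
    rfl
  have hm : ∀ x y : K, (x - y) = ⟨x.p - y.p, x.q - y.q, x.s - y.s⟩ := by
    intro x y
    apply K.toProd.injective
    rw [hsub]
    rfl
  rw [hp, hp, hm]
  simp only [K.mul_def]
  rcases z2 a.s with h | h
  · simp only [h, if_true]
    ext <;> ring
  · have h1 : ¬ ((1 : ZMod 2) = 0) := by decide
    simp only [h, h1, if_false]
    ext <;> ring

theorem solvable_GG : Group.IsSolvable GG := by
  have f3 : Fact (Nat.Prime 3) := ⟨Nat.prime_three⟩
  have f2 : Fact (Nat.Prime 2) := ⟨Nat.prime_two⟩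
  have hP : IsPGroup 3 P := IsPGroup.of_card (n := 5) (by rw [P.card]; norm_num)
  have hK : IsPGroup 2 K := IsPGroup.of_card (n := 3) (by rw [K.card]; norm_num)
  have h1 : Group.IsSolvable P := by
    have := hP.isNilpotent
    infer_instance
  have h2 : Group.IsSolvable K := by
    have := hK.isNilpotent
    infer_instance
  exact Group.isSolvable_of_ker_le_range (SemidirectProduct.inl : P →* GG)
    (SemidirectProduct.rightHom : GG →* K)
    (by rw [SemidirectProduct.range_inl_eq_ker_rightHom])

end Pool.Agent.Q274.IYB
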