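import Pool.Agent.Q274.IYB.Ext
import Pool.Agent.Q274.IYB.Core2

/-!
The group `G` of order `1944` is not the multiplicative group of a left brace.
-/

namespace Pool.Agent.Q274.IYB

open P

/-- The additive `n`-torsion. -/
def tor (A : Type*) [AddCommGroup A] (n : ℕ) : AddSubgroup A where
  carrier := {a | n • a = 0}
  zero_mem' := smul_zero _
  add_mem' := by
    intro a b ha hb
    show n • (a + b) = 0
    rw [smul_add, show n • a = 0 from ha, show n • b = 0 from hb, add_zero]
  neg_mem' := by
    intro a ha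
    show n • (-a) = 0
    rw [smul_neg, show n • a = 0 from ha, neg_zero]

theorem mem_tor {A : Type*} [AddCommGroup A] {n : ℕ} {a : A} : a ∈ tor A n ↔ n • a = 0 := Iff.rfl

section brace

variable {A : Type*} [AddCommGroup A] [Group A]

/-- The lambda maps of a left brace. -/
def lamA (hA : ∀ a b c : A, a * (b + c) = a * b - a + a * c) (x : A) : A →+ A :=
  AddMonoidHom.mk' (fun y => -x + x * y) (fun y z => by rw [hA]; abel)

variable (hA : ∀ a b c : A, a * (b + c) = a * b - a + a * c)

theorem lamA_apply (x y : A) : lamA hA x y = -x + x * y := rfl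

theorem mul_eq (x y : A) : x * y = x + lamA hA x y := by rw [lamA_apply]; abel

include hA in
theorem one_eq : (1 : A) = 0 := by
  have := hA 1 0 0
  rw [add_zero, one_mul, zero_sub, add_zero] at this
  exact neg_eq_zero.mp this.symm

theorem lamA_mem {n : ℕ} (x : A) {a : A} (ha : a ∈ tor A n) : lamA hA x a ∈ tor A n := by
  rw [mem_tor, ← map_nsmul, mem_tor.mp ha, map_zero]

/-- The torsion as a subgroup of the multiplicative group. -/
def mtor {G : Type*} [Group G] (ψ : G ≃* A) (n : ℕ) : Subgroup G where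
  carrier := {g | ψ g ∈ tor A n}
  one_mem' := by
    show ψ 1 ∈ tor A n
    rw [map_one, one_eq hA]
    exact AddSubgroup.zero_mem _
  mul_mem' := by
    intro g h hg hh
    show ψ (g * h) ∈ tor A n
    rw [map_mul, mul_eq hA]
    exact AddSubgroup.add_mem _ hg (lamA_mem hA _ hh)
  inv_mem' := by
    intro g hg
    show ψ g⁻¹ ∈ tor A n
    have h1 : ψ g⁻¹ * ψ g = 0 := by rw [← map_mul, inv_mul_cancel, map_one, one_eq hA]
    rw [mul_eq hA] at h1
    rw [eq_neg_of_add_eq_zero_left h1]
    exact AddSubgroup.neg_mem _ (lamA_mem hA _ hg)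

theorem mem_mtor {G : Type*} [Group G] (ψ : G ≃* A) (n : ℕ) (g : G) :
    g ∈ mtor hA ψ n ↔ ψ g ∈ tor A n := Iff.rfl

theorem card_mtor {G : Type*} [Group G] (ψ : G ≃* A) (n : ℕ) :
    Nat.card (mtor hA ψ n) = Nat.card (tor A n) :=
  Nat.card_congr (Equiv.subtypeEquiv ψ.toEquiv (fun _ => Iff.rfl))

end brace

section torsion

variable {A : Type*} [AddCommGroup A]

theorem card_tor (hc : Nat.card A = 1944) :
    Nat.card (tor A 243) = 243 ∧ Nat.card (tor A 8) = 8 := by
  have hf : Finite A := Nat.finite_of_card_ne_zero (by rw [hc]; norm_num)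
  have h0 : ∀ a : A, (1944 : ℕ) • a = 0 := by
    intro a
    have h := card_nsmul_eq_zero' (G := A) (x := a)
    rwa [hc] at h
  -- the sum map is bijective
  have hbij : Function.Bijective (fun p : tor A 243 × tor A 8 => (p.1 : A) + p.2) := by
    constructor
    · rintro ⟨a, b⟩ ⟨c, d⟩ h
      have ha := mem_tor.mp a.2
      have hb := mem_tor.mp b.2
      have hcc := mem_tor.mp c.2
      have hd := mem_tor.mp d.2
      have h' : (a : A) - c = d - b := by
        have : (a : A) + b = c + d := h
        rw [sub_eq_sub_iff_add_eq_add, this, add_comm]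
      have h1 : (243 : ℕ) • ((a : A) - c) = 0 := by rw [smul_sub, ha, hcc, sub_zero]
      have h2 : (8 : ℕ) • ((a : A) - c) = 0 := by rw [h', smul_sub, hb, hd, sub_zero]
      have h3 : (a : A) - c = 0 := by
        have : (3 * 243 : ℕ) • ((a : A) - c) = (91 * 8 : ℕ) • ((a : A) - c) + ((a : A) - c) := by
          rw [← succ_nsmul]
        rw [mul_nsmul', mul_nsmul', h1, h2, smul_zero, smul_zero, zero_add] at this
        exact this.symm
      have h4 : (a : A) = c := sub_eq_zero.mp h3
      have h5 : (b : A) = d := by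
        rw [h3] at h'
        exact (sub_eq_zero.mp h'.symm).symm
      exact Prod.ext (Subtype.ext h4) (Subtype.ext h5)
    · intro a
      refine ⟨(⟨(1216 : ℕ) • a, ?_⟩, ⟨(729 : ℕ) • a, ?_⟩), ?_⟩
      · rw [mem_tor, ← mul_nsmul']
        have : (243 * 1216 : ℕ) • a = (152 : ℕ) • (1944 : ℕ) • a := by rw [← mul_nsmul']
        rw [this, h0, smul_zero]
      · rw [mem_tor, ← mul_nsmul']
        have : (8 * 729 : ℕ) • a = (3 : ℕ) • (1944 : ℕ) • a := by rw [← mul_nsmul']
        rw [this, h0, smul_zero]
      · show (1216 : ℕ) • a + (729 : ℕ) • a = a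
        rw [← add_nsmul]
        have : (1216 + 729 : ℕ) • a = (1944 : ℕ) • a + a := by rw [← succ_nsmul]
        rw [this, h0, zero_add]
  have hprod : Nat.card (tor A 243) * Nat.card (tor A 8) = 1944 := by
    rw [← hc, ← Nat.card_prod]
    exact Nat.card_congr (Equiv.ofBijective _ hbij)
  have hc2 : Nat.Coprime (Nat.card (tor A 243)) 2 := by
    rw [Nat.coprime_comm, (Nat.prime_two).coprime_iff_not_dvd]
    intro hd
    have : Fact (Nat.Prime 2) := ⟨Nat.prime_two⟩
    obtain ⟨x, hx⟩ := exists_prime_addOrderOf_dvd_card' (G := tor A 243) 2 hd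
    have h1 : (2 : ℕ) • x = 0 := by rw [← hx]; exact addOrderOf_nsmul_eq_zero x
    have h2 : (243 : ℕ) • x = 0 := by
      apply Subtype.ext
      exact mem_tor.mp x.2
    have h3 : x = 0 := by
      have : (243 : ℕ) • x = (121 * 2 : ℕ) • x + x := by rw [← succ_nsmul]
      rw [mul_nsmul', h1, smul_zero, zero_add, h2] at this
      exact this.symm
    rw [h3, addOrderOf_zero] at hx
    norm_num at hx
  have hc3 : Nat.Coprime (Nat.card (tor A 8)) 3 := by
    rw [Nat.coprime_comm, (Nat.prime_three).coprime_iff_not_dvd]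
    intro hd
    have : Fact (Nat.Prime 3) := ⟨Nat.prime_three⟩
    obtain ⟨x, hx⟩ := exists_prime_addOrderOf_dvd_card' (G := tor A 8) 3 hd
    have h1 : (3 : ℕ) • x = 0 := by rw [← hx]; exact addOrderOf_nsmul_eq_zero x
    have h2 : (8 : ℕ) • x = 0 := by
      apply Subtype.ext
      exact mem_tor.mp x.2
    have h3 : x = 0 := by
      have : (3 * 3 : ℕ) • x = (8 : ℕ) • x + x := by rw [← succ_nsmul]
      rw [mul_nsmul', h1, smul_zero, h2, zero_add] at this
      exact this.symm
    rw [h3, addOrderOf_zero] at hx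
    norm_num at hx
  have hd1 : Nat.card (tor A 243) ∣ 243 := by
    have h1 : Nat.card (tor A 243) ∣ 243 * 2 ^ 3 := ⟨Nat.card (tor A 8), by rw [hprod]; norm_num⟩
    exact (Nat.Coprime.pow_right 3 hc2).dvd_of_dvd_mul_right h1
  have hd2 : Nat.card (tor A 8) ∣ 8 := by
    have h1 : Nat.card (tor A 8) ∣ 8 * 3 ^ 5 :=
      ⟨Nat.card (tor A 243), by rw [mul_comm (Nat.card (tor A 8)), hprod]; norm_num⟩
    exact (Nat.Coprime.pow_right 5 hc3).dvd_of_dvd_mul_right h1
  have l1 := Nat.le_of_dvd (by norm_num) hd1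
  have l2 := Nat.le_of_dvd (by norm_num) hd2
  constructor <;> nlinarith

theorem tor_inter {a : A} (h1 : a ∈ tor A 243) (h2 : a ∈ tor A 8) : a = 0 := by
  have : (3 * 243 : ℕ) • a = (91 * 8 : ℕ) • a + a := by
    rw [← succ_nsmul]
  rw [mul_nsmul', mul_nsmul', mem_tor.mp h1, mem_tor.mp h2, smul_zero, smul_zero, zero_add] at this
  exact this.symm

end torsion

/-- The cocycle attached to a brace whose multiplicative group is `G`, with complement `K`. -/
theorem false_of_iso {A : Type*} [AddCommGroup A] [Group A]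
    (hA : ∀ a b c : A, a * (b + c) = a * b - a + a * c) (ψ : GG ≃* A)
    (hP : ∀ g : GG, ψ g ∈ tor A 243 ↔ ∃ p : P, g = SemidirectProduct.inl p)
    (hK : ∀ k : K, ψ (SemidirectProduct.inr k) ∈ tor A 8) : False := by
  have hmem : ∀ p : P, ψ (SemidirectProduct.inl p) ∈ tor A 243 := fun p => (hP _).mpr ⟨p, rfl⟩
  let lam : A → tor A 243 →+ tor A 243 := fun x =>
    ((lamA hA x).comp (tor A 243).subtype).codRestrict (tor A 243)
      (fun a => lamA_mem hA x a.2)
  have hlam : ∀ x (a : tor A 243), ((lam x a : tor A 243) : A) = lamA hA x a := fun _ _ => rfl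
  let C : Coc (tor A 243) :=
    { lam := fun p => lam (ψ (SemidirectProduct.inl p))
      pi := Equiv.ofBijective (fun p => ⟨ψ (SemidirectProduct.inl p), hmem p⟩) (by
        constructor
        · intro p q h
          exact SemidirectProduct.inl_injective (ψ.injective (congrArg Subtype.val h))
        · intro a
          obtain ⟨g, hg⟩ := ψ.surjective a
          obtain ⟨p, hp⟩ := (hP g).mp (by rw [hg]; exact a.2)
          exact ⟨p, Subtype.ext (by rw [← hg, hp])⟩)
      h := by
        intro p q
        apply Subtype.ext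
        show ψ (SemidirectProduct.inl (p * q)) = ψ (SemidirectProduct.inl p)
          + lamA hA (ψ (SemidirectProduct.inl p)) (ψ (SemidirectProduct.inl q))
        rw [← mul_eq hA, ← map_mul, map_mul] }
  have hpi : ∀ p, ((C.pi p : tor A 243) : A) = ψ (SemidirectProduct.inl p) := fun _ => rfl
  have hT : ∀ (k : K) (p : P), lam (ψ (SemidirectProduct.inr k)) (C.pi p) = C.pi (act k p) := by
    intro k p
    apply Subtype.ext
    rw [hlam, hpi, hpi]
    have h1 : (SemidirectProduct.inr k : GG) * SemidirectProduct.inl p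
        = SemidirectProduct.inl (act k p) * SemidirectProduct.inr k := by
      have := SemidirectProduct.inl_aut (φ := actHom) k p
      rw [actHom_apply] at this
      rw [this, map_inv]
      group
    have h2 := congrArg ψ h1
    rw [map_mul, map_mul, mul_eq hA, mul_eq hA] at h2
    set m' := ψ (SemidirectProduct.inl (act k p)) with hm'
    set κ := ψ (SemidirectProduct.inr k) with hκ
    set m := lamA hA κ (ψ (SemidirectProduct.inl p)) with hm
    have h3 : m - m' = lamA hA m' κ - κ := by
      rw [sub_eq_sub_iff_add_eq_add, add_comm m κ, h2, add_comm]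
    have h4 : m - m' ∈ tor A 243 :=
      AddSubgroup.sub_mem _ (lamA_mem hA _ (hmem p)) (hmem _)
    have h5 : m - m' ∈ tor A 8 := by
      rw [h3]
      exact AddSubgroup.sub_mem _ (lamA_mem hA _ (hK k)) (hK k)
    exact sub_eq_zero.mp (tor_inter h4 h5)
  exact C.false_of_additive (lam (ψ (SemidirectProduct.inr ⟨1, 0, 0⟩)))
    (lam (ψ (SemidirectProduct.inr ⟨0, 0, 1⟩)))
    (fun p => by rw [hT, act_tau]) (fun p => by rw [hT, act_sig])

/-- **Theorem.** The group `G` of order `1944` is not the multiplicative group of a left brace. -/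
theorem not_brace {A : Type*} [AddCommGroup A] [Group A]
    (hA : ∀ a b c : A, a * (b + c) = a * b - a + a * c) (ψ : GG ≃* A) : False := by
  have hcA : Nat.card A = 1944 := by rw [← Nat.card_congr ψ.toEquiv, card_GG]
  obtain ⟨c3, c8⟩ := card_tor hcA
  have f2 : Fact (Nat.Prime 2) := ⟨Nat.prime_two⟩
  -- the normal Sylow 3-subgroup
  have key3 : ∀ χ : GG ≃* A, mtor hA χ 243
      = (SemidirectProduct.inl : P →* GG).range := by
    intro χ
    have hle : mtor hA χ 243 ≤ (SemidirectProduct.inl : P →* GG).range := by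
      intro g hg
      rw [SemidirectProduct.range_inl_eq_ker_rightHom, MonoidHom.mem_ker]
      have h1 : g ^ 243 = 1 := by
        have := pow_card_eq_one' (G := mtor hA χ 243) (x := ⟨g, hg⟩)
        rw [card_mtor, c3] at this
        have h2 := congrArg Subtype.val this
        rw [SubmonoidClass.coe_pow] at h2
        exact h2
      have h2 : (SemidirectProduct.rightHom g : K) ^ 243 = 1 := by
        rw [← map_pow, h1, map_one]
      have h3 : ∀ k : K, k ^ 8 = 1 := by
        intro k
        have := pow_card_eq_one' (G := K) (x := k)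
        rwa [K.card] at this
      set k : K := SemidirectProduct.rightHom g with hk
      have h4 : k ^ 3 = 1 := by
        have : k ^ 243 = (k ^ 8) ^ 30 * k ^ 3 := by rw [← pow_mul, ← pow_add]
        rwa [h2, h3, one_pow, one_mul, eq_comm] at this
      have h5 : k ^ 8 * k = (k ^ 3) ^ 3 := by rw [← pow_succ, ← pow_mul]
      rwa [h3, h4, one_mul, one_pow] at h5
    apply Subgroup.eq_of_le_of_card_ge hle
    rw [card_mtor, c3, ← Nat.card_congr
      (MonoidHom.ofInjective (SemidirectProduct.inl_injective (φ := actHom))).toEquiv, P.card]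
  -- the complement
  have hcK : Nat.card (SemidirectProduct.inr : K →* GG).range = 8 := by
    rw [← Nat.card_congr
      (MonoidHom.ofInjective (SemidirectProduct.inr_injective (φ := actHom))).toEquiv, K.card]
  have hSyl : ∀ H : Subgroup GG, Nat.card H = 8 → ∃ S : Sylow 2 GG, (S : Subgroup GG) = H := by
    intro H hH
    have hp : IsPGroup 2 H := IsPGroup.of_card (n := 3) (by rw [hH]; norm_num)
    have hi : ¬ 2 ∣ H.index := by
      have h1 := H.card_mul_index
      rw [hH, card_GG] at h1
      have : H.index = 243 := by omega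
      rw [this]; norm_num
    exact ⟨hp.toSylow hi, rfl⟩
  obtain ⟨S1, hS1⟩ := hSyl (SemidirectProduct.inr : K →* GG).range hcK
  obtain ⟨S2, hS2⟩ := hSyl (mtor hA ψ 8) (by rw [card_mtor, c8])
  obtain ⟨g, hg⟩ := MulAction.exists_smul_eq GG S1 S2
  have hconj : ∀ k : K, g * SemidirectProduct.inr k * g⁻¹ ∈ mtor hA ψ 8 := by
    intro k
    rw [← hS2, ← hg, Sylow.coe_subgroup_smul, hS1]
    rw [Subgroup.mem_pointwise_smul_iff_inv_smul_mem]
    refine ⟨k, ?_⟩
    rw [← map_inv, MulAut.smul_def, MulAut.conj_apply]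
    group
  refine false_of_iso hA ((MulAut.conj g).trans ψ) ?_ ?_
  · intro h
    have h1 := key3 ((MulAut.conj g).trans ψ)
    rw [← mem_mtor hA, h1, MonoidHom.mem_range]
    constructor
    · rintro ⟨p, hp⟩; exact ⟨p, hp.symm⟩
    · rintro ⟨p, hp⟩; exact ⟨p, hp.symm⟩
  · intro k
    have := hconj k
    rw [mem_mtor] at this
    exact this

end Pool.Agent.Q274.IYB
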